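import Mathlib
import Pool.Agent.U260.VC3

/-!
# Every simple polygon can be carried to a regular polygon by vertex-centroid moves

The plane is `ℂ`.  We show that for `n ≥ 3` any two non-collinear `n`-tuples of points are
connected by vertex-centroid moves.  As simple polygons and regular polygons are not collinear,
this answers the question positively.

Key point: with `c` the centroid of the other `n - 2` vertices, the slides of the two vertices
`v_i`, `v_k` act on `(v_i - c, v_k - c)` linearly, and an explicit loop of four slides is the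
map `(x, y) ↦ (x + c (x - y), y + c (x - y))`; these loops generate the shears
`(x, y) ↦ (x + β y, y)`, and hence the moves `v_i ↦ v_i + β (v_k - v_l)`.
-/

set_option autoImplicit false

namespace Pool.Agent.Results.MP_06c496_co.RegularReachable

/-- the vertex centroid of a polygon -/
noncomputable def centroid {n : ℕ} (v : Fin n → ℂ) : ℂ := (∑ i, v i) / n

/-- A vertex-centroid move: some vertex `v i`, different from the centroid `m`, is replaced by a
point of the line through `v i` and `m`. -/
def Move {n : ℕ} (v w : Fin n → ℂ) : Prop :=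
  ∃ i, v i ≠ centroid v ∧ ∃ z ∈ line[ℝ, v i, centroid v], w = Function.update v i z

/-- `w` is obtained from `v` by finitely many moves. -/
def Reach {n : ℕ} (v w : Fin n → ℂ) : Prop := Relation.ReflTransGen Move v w

/-- Simple polygon: the vertices are distinct and two different edges
`[v i, v (i+1)]`, `[v j, v (j+1)]` (indices mod `n`) meet at most in a common end point: the
end of one and the beginning of the next. -/
def IsSimple {n : ℕ} [NeZero n] (v : Fin n → ℂ) : Prop :=
  Function.Injective v ∧ ∀ i j, i ≠ j → ∀ x, x ∈ segment ℝ (v i) (v (i + 1)) →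
    x ∈ segment ℝ (v j) (v (j + 1)) → (j = i + 1 ∧ x = v j) ∨ (i = j + 1 ∧ x = v i)

/-- regular polygon, vertices in their cyclic order -/
def IsRegular {n : ℕ} (w : Fin n → ℂ) : Prop :=
  ∃ c r : ℂ, r ≠ 0 ∧ ∀ j : Fin n, w j = c + r * Complex.exp (2 * Real.pi * Complex.I * j / n)

open Pool.Agent.U260.VC2 Pool.Agent.U260.VC3

theorem reach_iff {n : ℕ} (v w : Fin n → ℂ) : Reach v w ↔ Rch v w := by
  have : (Move : (Fin n → ℂ) → (Fin n → ℂ) → Prop) = Mv := by
    funext v w
    unfold Move Mv centroid cen
    rw [Fintype.card_fin]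
  unfold Reach Rch
  rw [this]

theorem connected' {n : ℕ} (hn : 3 ≤ n) (v w : Fin n → ℂ)
    (hv : ¬ Collinear ℝ (Set.range v)) (hw : ¬ Collinear ℝ (Set.range w)) : Reach v w := by
  rw [reach_iff]
  exact connected (by rw [Fintype.card_fin]; exact hn) v w (NC_of_not_collinear hv)
    (NC_of_not_collinear hw)

theorem simple_not_collinear {n : ℕ} [NeZero n] (hn : 3 ≤ n) (v : Fin n → ℂ) (hv : IsSimple v) :
    ¬ Collinear ℝ (Set.range v) := by
  intro hcol
  obtain ⟨hinj, hs⟩ := hv
  obtain ⟨p0, d, hd⟩ := (collinear_iff_exists_forall_eq_smul_vadd (k := ℝ) _).1 hcol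
  have h1 : ∀ j, ∃ t : ℝ, v j = t • d +ᵥ p0 := fun j => hd (v j) ⟨j, rfl⟩
  choose t ht using h1
  have htinj : Function.Injective t := by
    intro a b hab
    apply hinj
    rw [ht a, ht b, hab]
  have : Nonempty (Fin n) := ⟨⟨0, by omega⟩⟩
  obtain ⟨i, hi⟩ := Finite.exists_min t
  -- the two neighbours
  have hip : i + 1 ≠ i := by
    intro h
    have := congrArg Fin.val h
    rw [Fin.val_add] at this
    have h2 : ((1 : Fin n) : ℕ) = 1 := by
      rw [Fin.val_one']; exact Nat.mod_eq_of_lt (by omega)
    rw [h2] at this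
    have h3 := i.isLt
    rcases Nat.lt_or_ge (i.val + 1) n with h4 | h4
    · rw [Nat.mod_eq_of_lt h4] at this; omega
    · have h5 : i.val + 1 = n := by omega
      rw [h5, Nat.mod_self] at this; omega
  set k : Fin n := i - 1 with hk
  have hk1 : k + 1 = i := by rw [hk]; exact sub_add_cancel i 1
  have hki : k ≠ i := by
    intro h
    apply hip
    conv_rhs => rw [← hk1]
    rw [h]
  have hkip : k ≠ i + 1 := by
    intro h
    have h6 : i = i + 1 + 1 := by
      conv_lhs => rw [← hk1, h]
    have := congrArg Fin.val h6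
    have h2 : ((1 : Fin n) : ℕ) = 1 := by
      rw [Fin.val_one']; exact Nat.mod_eq_of_lt (by omega)
    rw [Fin.val_add, Fin.val_add, h2, Nat.mod_add_mod] at this
    have h3 := i.isLt
    rcases Nat.lt_or_ge (i.val + 1 + 1) n with h4 | h4
    · rw [Nat.mod_eq_of_lt h4] at this; omega
    · rw [Nat.mod_eq_sub_mod h4, Nat.mod_eq_of_lt (by omega)] at this
      omega
  have hlt1 : t i < t (i + 1) := lt_of_le_of_ne (hi _) (fun h => hip (htinj h).symm)
  have hlt2 : t i < t k := lt_of_le_of_ne (hi _) (fun h => hki (htinj h).symm)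
  have hseg : ∀ a b c : Fin n, t a < t b → t b ≤ t c → v b ∈ segment ℝ (v a) (v c) := by
    intro a b c h1 h2
    have h3 : 0 < t c - t a := by linarith
    refine ⟨(t c - t b) / (t c - t a), (t b - t a) / (t c - t a), by
      apply div_nonneg <;> linarith, by apply div_nonneg <;> linarith, by
      field_simp; ring, ?_⟩
    rw [ht a, ht b, ht c]
    simp only [vadd_eq_add, Complex.real_smul]
    have h4 : ((t c : ℂ) - t a) ≠ 0 := by
      have := h3.ne'
      exact_mod_cast this
    push_cast
    field_simp
    ring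
  rcases le_total (t (i + 1)) (t k) with h | h
  · have m1 : v (i + 1) ∈ segment ℝ (v i) (v (i + 1)) := right_mem_segment ℝ _ _
    have m2 : v (i + 1) ∈ segment ℝ (v k) (v (k + 1)) := by
      rw [hk1, segment_symm]; exact hseg i (i + 1) k hlt1 h
    rcases hs i k hki.symm _ m1 m2 with ⟨h1, -⟩ | ⟨-, h2⟩
    · exact hkip h1
    · exact hip (hinj h2)
  · have m1 : v k ∈ segment ℝ (v i) (v (i + 1)) := hseg i k (i + 1) hlt2 h
    have m2 : v k ∈ segment ℝ (v k) (v (k + 1)) := left_mem_segment ℝ _ _
    rcases hs i k hki.symm _ m1 m2 with ⟨h1, -⟩ | ⟨-, h2⟩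
    · exact hkip h1
    · exact hki (hinj h2)

theorem regular_not_collinear {n : ℕ} (hn : 3 ≤ n) (w : Fin n → ℂ) (hw : IsRegular w) :
    ¬ Collinear ℝ (Set.range w) := by
  apply not_collinear_of_NC
  obtain ⟨c, r, hr, h⟩ := hw
  set ζ : ℂ := Complex.exp (2 * Real.pi * Complex.I / n) with hζ
  have hn' : (3 : ℝ) ≤ n := by exact_mod_cast hn
  have hpi := Real.pi_pos
  have him : ζ.im = Real.sin (2 * Real.pi / n) := by
    rw [hζ]
    have : (2 * Real.pi * Complex.I / n : ℂ) = ((2 * Real.pi / n : ℝ) : ℂ) * Complex.I := by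
      push_cast; ring
    rw [this, Complex.exp_ofReal_mul_I_im]
  have him0 : 0 < ζ.im := by
    rw [him]
    apply Real.sin_pos_of_pos_of_lt_pi
    · positivity
    · rw [div_lt_iff₀ (by positivity)]
      nlinarith
  have h0 : w ⟨0, by omega⟩ = c + r := by
    rw [h]; simp
  have h1 : w ⟨1, by omega⟩ = c + r * ζ := by
    rw [h, hζ]; simp
  have h2 : w ⟨2, by omega⟩ = c + r * ζ ^ 2 := by
    rw [h, hζ, ← Complex.exp_nat_mul]
    congr 3
    push_cast
    ring
  refine ⟨⟨0, by omega⟩, ⟨1, by omega⟩, ⟨2, by omega⟩, ?_⟩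
  unfold Tri
  rw [h0, h1, h2]
  have hcr : ∀ z u : ℂ, cr z (z * u) = Complex.normSq z * u.im := by
    intro z u
    unfold cr
    rw [Complex.normSq_apply, Complex.mul_re, Complex.mul_im]
    ring
  have e1 : c + r * ζ ^ 2 - (c + r) = (c + r * ζ - (c + r)) * (ζ + 1) := by ring
  rw [e1, hcr]
  apply mul_ne_zero
  · rw [Ne, Complex.normSq_eq_zero]
    have : c + r * ζ - (c + r) = r * (ζ - 1) := by ring
    rw [this]
    apply mul_ne_zero hr
    intro h3
    have : ζ = 1 := by linear_combination h3
    rw [this] at him0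
    simp at him0
  · simp only [Complex.add_im, Complex.one_im, add_zero]
    exact him0.ne'

/-- For every `n ≥ 3`: every simple polygon with `n` vertices can be carried to a regular polygon
by a finite sequence of vertex-centroid moves.  (By `connected'`, any non-collinear `n`-tuple of
points can even be carried to any other one.) -/
theorem result : ∀ (n : ℕ) [NeZero n], 3 ≤ n → ∀ v : Fin n → ℂ, IsSimple v →
    ∃ w : Fin n → ℂ, IsRegular w ∧ Reach v w := by
  intro n _ hn v hv
  have hreg : IsRegular (fun j : Fin n => (0 : ℂ) + 1 *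
      Complex.exp (2 * Real.pi * Complex.I * j / n)) := ⟨0, 1, one_ne_zero, fun _ => rfl⟩
  exact ⟨_, hreg, connected' hn v _ (simple_not_collinear hn v hv) (regular_not_collinear hn _ hreg)⟩

end Pool.Agent.Results.MP_06c496_co.RegularReachable
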